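import Pool.Agent.K3h2.LT.Stm

/-!
# Brick LOWA of project LT (helper25)
-/

set_option autoImplicit false

open Filter Topology

namespace Pool.Agent.K3h25.LT

open Pool.Agent.K3h2.LT

theorem summable_half : Summable (fun k : ℤ => ((1:ℝ)/2) ^ k.natAbs) := by
  apply Summable.of_nat_of_neg
  · simpa using summable_geometric_two
  · simpa using summable_geometric_two

/-- the linearisation identity -/
theorem lin_id {L l E : ℝ} {U V Y : ℤ → ℝ} (k : ℤ) (hE : E ≠ 0)
    (h1 : l * V k = U (k - 1) ^ 2 + U k ^ 2 + U (k + 1) ^ 2)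
    (h2 : L * Y k = Y (k - 1) ^ 2 + Y k ^ 2 + Y (k + 1) ^ 2) :
    l * ((V k - Y k) / E) = (U (k - 1) + Y (k - 1)) * ((U (k - 1) - Y (k - 1)) / E) +
      (U k + Y k) * ((U k - Y k) / E) + (U (k + 1) + Y (k + 1)) * ((U (k + 1) - Y (k + 1)) / E) +
      (L - l) / E * Y k := by
  field_simp
  linarith

/-- the limit of the linearisation -/
theorem lin_lim {L : ℝ} (hL : 0 < L) {l E : ℕ → ℝ} {U V Y : ℕ → ℤ → ℝ} {x0 h : ℤ → ℝ}
    (hl : ∀ j, 0 < l j) (hE : ∀ j, 0 < E j) (hlim : Tendsto l atTop (𝓝 L))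
    (hr : Tendsto (fun j => (L - l j) / E j) atTop (𝓝 0))
    (h1 : ∀ j k, l j * V j k = U j (k - 1) ^ 2 + U j k ^ 2 + U j (k + 1) ^ 2)
    (h2 : ∀ j k, L * Y j k = Y j (k - 1) ^ 2 + Y j k ^ 2 + Y j (k + 1) ^ 2)
    (hU : ∀ k, Tendsto (fun j => U j k) atTop (𝓝 (x0 k)))
    (hY : ∀ k, Tendsto (fun j => Y j k) atTop (𝓝 (x0 k)))
    (ha : ∀ k, Tendsto (fun j => (U j k - Y j k) / E j) atTop (𝓝 (h k))) (k : ℤ) :
    Tendsto (fun j => (V j k - Y j k) / E j) atTop
      (𝓝 ((2 * x0 (k - 1) * h (k - 1) + 2 * x0 k * h k + 2 * x0 (k + 1) * h (k + 1)) / L)) := by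
  have key : ∀ m, Tendsto (fun j => (U j m + Y j m) * ((U j m - Y j m) / E j)) atTop
      (𝓝 (2 * x0 m * h m)) := by
    intro m
    have := ((hU m).add (hY m)).mul (ha m)
    have e : (x0 m + x0 m) * h m = 2 * x0 m * h m := by ring
    rwa [e] at this
  have h3 := ((((key (k - 1)).add (key k)).add (key (k + 1))).add (hr.mul (hY k))).div hlim hL.ne'
  rw [zero_mul, add_zero] at h3
  refine h3.congr (fun j => ?_)
  have h4 := lin_id k (hE j).ne' (h1 j k) (h2 j k)
  simp only [Pi.div_apply]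
  rw [← h4]
  field_simp [(hl j).ne']

theorem half_shift (k : ℤ) : ((1:ℝ)/2) ^ (k - 1).natAbs ≤ 2 * (1/2) ^ k.natAbs ∧
    ((1:ℝ)/2) ^ (k + 1).natAbs ≤ 2 * (1/2) ^ k.natAbs := by
  have aux : ∀ a b : ℕ, b ≤ a + 1 → ((1:ℝ)/2) ^ a ≤ 2 * (1/2) ^ b := by
    intro a b hab
    have h1 : ((1:ℝ)/2) ^ (a + 1) ≤ (1/2) ^ b :=
      pow_le_pow_of_le_one (by norm_num) (by norm_num) hab
    have h2 : ((1:ℝ)/2) ^ (a + 1) = (1/2) ^ a * (1/2) := pow_succ _ _
    rw [h2] at h1
    linarith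
  exact ⟨aux _ _ (by omega), aux _ _ (by omega)⟩

/-- LOWA -/
theorem t_LOWA : S_UPP → S_NEG → S_POS → S_SUB → S_LOWA := by
  intro hUPP hNEG hPOS hSUB C L s lam ho M hM n y η x0 hx0 hy hη hη0 hcl hbig h2c hMy hs0 hs1 hy0
  obtain ⟨K, hK, hupp⟩ := hUPP C L s lam ho
  have hC : 1 ≤ C := ho.Cpos
  have hL := ho.Lpos
  -- the normalised differences
  have habs : ∀ j k, |(s (n j) k - y j k) / η j| ≤ 1 := by
    intro j k
    rw [abs_div, abs_of_pos (hη j), div_le_one (hη j)]
    exact hcl j k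
  obtain ⟨ψ, h, hψ, hh⟩ := hSUB (fun j k => (s (n j) k - y j k) / η j) 1 habs
  have hψt := hψ.tendsto_atTop
  -- rates
  have hrate : ∀ j, L - lam (n j) ≤ K * η j ^ 2 := fun j =>
    hupp (n j) (y j) (η j) (hy j) (hη j).le (hcl j)
  have hrate' : ∀ j, L - lam (n j + 1) ≤ K * η j ^ 2 := fun j =>
    le_trans (by have := ho.mono (Nat.le_succ (n j)); simp only [Nat.succ_eq_add_one] at this; linarith) (hrate j)
  have hKη : Tendsto (fun j => K * η j) atTop (𝓝 0) := by
    simpa using hη0.const_mul K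
  have hKη2 : Tendsto (fun j => K * η j ^ 2) atTop (𝓝 0) := by
    simpa using (hη0.pow 2).const_mul K
  have hq : ∀ j, 0 ≤ (L - lam (n j)) / η j ∧ (L - lam (n j)) / η j ≤ K * η j := by
    intro j
    refine ⟨div_nonneg (by linarith [ho.leL (n j)]) (hη j).le, ?_⟩
    rw [div_le_iff₀ (hη j)]
    nlinarith [hrate j]
  have hq' : ∀ j, 0 ≤ (L - lam (n j + 1)) / η j ∧ (L - lam (n j + 1)) / η j ≤ K * η j := by
    intro j
    refine ⟨div_nonneg (by linarith [ho.leL (n j + 1)]) (hη j).le, ?_⟩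
    rw [div_le_iff₀ (hη j)]
    nlinarith [hrate' j]
  have hr1 : Tendsto (fun j => (L - lam (n j)) / η j) atTop (𝓝 0) :=
    squeeze_zero (fun j => (hq j).1) (fun j => (hq j).2) hKη
  have hr2 : Tendsto (fun j => (L - lam (n j + 1)) / η j) atTop (𝓝 0) :=
    squeeze_zero (fun j => (hq' j).1) (fun j => (hq' j).2) hKη
  have hl1 : Tendsto (fun j => lam (n j)) atTop (𝓝 L) := by
    have h1 : Tendsto (fun j => L - lam (n j)) atTop (𝓝 0) :=
      squeeze_zero (fun j => by linarith [ho.leL (n j)]) hrate hKη2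
    have h2 := (tendsto_const_nhds (x := L)).sub h1
    simpa using h2
  have hl2 : Tendsto (fun j => lam (n j + 1)) atTop (𝓝 L) := by
    have h1 : Tendsto (fun j => L - lam (n j + 1)) atTop (𝓝 0) :=
      squeeze_zero (fun j => by linarith [ho.leL (n j + 1)]) hrate' hKη2
    have h2 := (tendsto_const_nhds (x := L)).sub h1
    simpa using h2
  -- the limits along `ψ`
  have hg := lin_lim hL (l := fun j => lam (n (ψ j))) (E := fun j => η (ψ j))
    (U := fun j => s (n (ψ j))) (V := fun j => s (n (ψ j) + 1)) (Y := fun j => y (ψ j))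
    (x0 := x0) (h := h) (fun j => ho.pos _) (fun j => hη _) (hl1.comp hψt) (hr1.comp hψt)
    (fun j k => ho.step _ k) (fun j k => (hy _).eq k) (fun k => (hs0 k).comp hψt)
    (fun k => (hy0 k).comp hψt) hh
  set g : ℤ → ℝ := fun k =>
    (2 * x0 (k - 1) * h (k - 1) + 2 * x0 k * h k + 2 * x0 (k + 1) * h (k + 1)) / L with hgdef
  have hc := lin_lim hL (l := fun j => lam (n (ψ j) + 1)) (E := fun j => η (ψ j))
    (U := fun j => s (n (ψ j) + 1)) (V := fun j => s (n (ψ j) + 2)) (Y := fun j => y (ψ j))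
    (x0 := x0) (h := g) (fun j => ho.pos _) (fun j => hη _) (hl2.comp hψt) (hr2.comp hψt)
    (fun j k => ho.step _ k) (fun j k => (hy _).eq k) (fun k => (hs1 k).comp hψt)
    (fun k => (hy0 k).comp hψt) hg
  -- `c - a → 0`
  have hca : ∀ j k, |(s (n j + 2) k - y j k) / η j - (s (n j) k - y j k) / η j| ≤
      1 / ((j : ℝ) + 1) := by
    intro j k
    have e : (s (n j + 2) k - y j k) / η j - (s (n j) k - y j k) / η j =
        (s (n j + 2) k - s (n j) k) / η j := by ring
    rw [e, abs_div, abs_of_pos (hη j), div_le_iff₀ (hη j)]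
    calc |s (n j + 2) k - s (n j) k| ≤ η j / (j + 1) := h2c j k
      _ = 1 / ((j:ℝ) + 1) * η j := by ring
  have hone : Tendsto (fun j : ℕ => 1 / ((j : ℝ) + 1)) atTop (𝓝 0) :=
    tendsto_one_div_add_atTop_nhds_zero_nat
  have hhg : ∀ k, h k =
      (2 * x0 (k - 1) * g (k - 1) + 2 * x0 k * g k + 2 * x0 (k + 1) * g (k + 1)) / L := by
    intro k
    have h0 : Tendsto (fun j => (s (n j + 2) k - y j k) / η j - (s (n j) k - y j k) / η j) atTop
        (𝓝 0) := by
      rw [tendsto_zero_iff_abs_tendsto_zero]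
      exact squeeze_zero (fun j => abs_nonneg _) (fun j => hca j k) hone
    have h1 := (hc k).sub (hh k)
    have h2 := h0.comp hψt
    have h3 := tendsto_nhds_unique h2 h1
    linarith
  -- bounds
  have hh1 : ∀ k, |h k| ≤ 1 := by
    intro k
    exact le_of_tendsto' ((hh k).abs) (fun j => habs (ψ j) k)
  have hx0p : ∀ k, 0 < 2 * x0 k := fun k => by have := hx0.pos k; linarith
  have hsmall : ∀ k, |2 * x0 k * h k| ≤ L := by
    intro k
    rw [abs_mul, abs_of_pos (hx0p k)]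
    have h1 := hx0.small k
    have h2 := hh1 k
    have h3 := hx0p k
    nlinarith [abs_nonneg (h k)]
  have hg3 : ∀ k, |g k| ≤ 3 := by
    intro k
    simp only [hgdef]
    rw [abs_div, abs_of_pos hL, div_le_iff₀ hL]
    have h1 := hsmall (k - 1)
    have h2 := hsmall k
    have h3 := hsmall (k + 1)
    have h4 := abs_add_three (2 * x0 (k - 1) * h (k - 1)) (2 * x0 k * h k)
      (2 * x0 (k + 1) * h (k + 1))
    linarith
  have hLg : ∀ k, L * g k =
      2 * x0 (k - 1) * h (k - 1) + 2 * x0 k * h k + 2 * x0 (k + 1) * h (k + 1) := by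
    intro k
    simp only [hgdef]
    field_simp
  have hLh : ∀ k, L * h k =
      2 * x0 (k - 1) * g (k - 1) + 2 * x0 k * g k + 2 * x0 (k + 1) * g (k + 1) := by
    intro k
    rw [hhg k]
    field_simp
  have hxsum : Summable (fun k => 2 * x0 k) := by
    refine Summable.mul_left 2 ?_
    refine Summable.of_nonneg_of_le (fun k => (hx0.pos k).le) (fun k => hx0.dom k) ?_
    exact summable_half.mul_left C
  have hneg := hNEG L 4 (fun k => 2 * x0 k) (fun k => g k - h k) hL
    (fun k => ⟨hx0p k, hx0.small k⟩) hxsum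
    (fun k => by
      have h1 := hg3 k
      have h2 := hh1 k
      have h3 := abs_sub (g k) (h k)
      linarith)
    (fun k => by
      have h1 := hLg k
      have h2 := hLh k
      linarith)
  have hgh : ∀ k, g k = h k := fun k => by have := hneg k; linarith
  have hhM : h M = 0 := by
    have h1 : Tendsto (fun j => (s (n (ψ j)) M - y (ψ j) M) / η (ψ j)) atTop (𝓝 0) := by
      have e : (fun j => (s (n (ψ j)) M - y (ψ j) M) / η (ψ j)) = fun _ => 0 := by
        funext j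
        rw [hMy (ψ j)]
        simp
      rw [e]
      exact tendsto_const_nhds
    exact tendsto_nhds_unique (hh M) h1
  have hz := hPOS L 1 (fun k => 2 * x0 k) h M hL hx0p
    (fun k hk => by
      have h1 := hM k hk
      have h2 := hx0.dom k
      linarith)
    hh1
    (fun k => by
      have h1 := hLg k
      rw [hgh k] at h1
      exact h1)
    hhM
  -- uniform bounds for `b` and `c`
  obtain ⟨E0, hE0⟩ : ∃ E0, ∀ j, η j ≤ E0 := by
    obtain ⟨E0, h0⟩ := hη0.bddAbove_range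
    exact ⟨E0, fun j => h0 ⟨j, rfl⟩⟩
  have hl0 : 0 < lam 0 := ho.pos 0
  have hlge : ∀ m, lam 0 ≤ lam m := fun m => ho.mono (Nat.zero_le m)
  have hhalf1 : ∀ k : ℤ, ((1:ℝ)/2) ^ k.natAbs ≤ 1 := fun k =>
    pow_le_one₀ (by norm_num) (by norm_num)
  have hhalf0 : ∀ k : ℤ, 0 < ((1:ℝ)/2) ^ k.natAbs := fun k => by positivity
  -- a general bound
  have hbound : ∀ (l : ℝ) (j : ℕ) (U V : ℤ → ℝ) (B : ℝ) (k : ℤ), 0 ≤ B → lam 0 ≤ l →
      0 ≤ (L - l) / η j → (L - l) / η j ≤ K * η j →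
      (∀ k, 0 ≤ U k) → (∀ k, U k ≤ C * (1/2) ^ k.natAbs) →
      (∀ k, |(U k - y j k) / η j| ≤ B) →
      (l * V k = U (k - 1) ^ 2 + U k ^ 2 + U (k + 1) ^ 2) →
      |(V k - y j k) / η j| ≤ (10 * C * B * (1/2) ^ k.natAbs + K * C * η j) / lam 0 := by
    intro l j U V B k hB hl hq1 hq2 hU0 hUd hUb hst
    have hid := lin_id k (hη j).ne' hst ((hy j).eq k)
    have hlpos : 0 < l := lt_of_lt_of_le hl0 hl
    have hterm : ∀ m, |(U m + y j m) * ((U m - y j m) / η j)| ≤ 2 * C * (1/2) ^ m.natAbs * B := by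
      intro m
      rw [abs_mul]
      have h1 : |U m + y j m| ≤ 2 * C * (1/2) ^ m.natAbs := by
        rw [abs_of_nonneg (by have := hU0 m; have := (hy j).pos m; linarith)]
        have := hUd m
        have := (hy j).dom m
        linarith
      exact mul_le_mul h1 (hUb m) (abs_nonneg _) (le_trans (abs_nonneg _) h1)
    have hlast : |(L - l) / η j * y j k| ≤ K * C * η j := by
      rw [abs_mul, abs_of_nonneg hq1, abs_of_pos ((hy j).pos k)]
      have h1 : y j k ≤ C := by
        have h2 := (hy j).dom k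
        have h3 := hhalf1 k
        nlinarith
      calc (L - l) / η j * y j k ≤ (K * η j) * C :=
            mul_le_mul hq2 h1 ((hy j).pos k).le (by have := hη j; positivity)
        _ = K * C * η j := by ring
    have hsum : |l * ((V k - y j k) / η j)| ≤
        10 * C * B * (1/2) ^ k.natAbs + K * C * η j := by
      rw [hid]
      have h1 := abs_add_le ((U (k - 1) + y j (k - 1)) * ((U (k - 1) - y j (k - 1)) / η j) +
        (U k + y j k) * ((U k - y j k) / η j) +
        (U (k + 1) + y j (k + 1)) * ((U (k + 1) - y j (k + 1)) / η j)) ((L - l) / η j * y j k)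
      have h2 := abs_add_three ((U (k - 1) + y j (k - 1)) * ((U (k - 1) - y j (k - 1)) / η j))
        ((U k + y j k) * ((U k - y j k) / η j))
        ((U (k + 1) + y j (k + 1)) * ((U (k + 1) - y j (k + 1)) / η j))
      have h3 := hterm (k - 1)
      have h4 := hterm k
      have h5 := hterm (k + 1)
      obtain ⟨h6, h7⟩ := half_shift k
      have hCB : 0 ≤ 2 * C * B := by positivity
      have h8 := mul_le_mul_of_nonneg_left h6 hCB
      have h9 := mul_le_mul_of_nonneg_left h7 hCB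
      linarith
    rw [le_div_iff₀ hl0]
    calc |(V k - y j k) / η j| * lam 0 ≤ |(V k - y j k) / η j| * l :=
          mul_le_mul_of_nonneg_left hl (abs_nonneg _)
      _ = |l * ((V k - y j k) / η j)| := by rw [abs_mul, abs_of_pos hlpos, mul_comm]
      _ ≤ _ := hsum
  set B : ℝ := (10 * C * 1 * 1 + K * C * E0) / lam 0 with hBdef
  have hE00 : 0 < E0 := lt_of_lt_of_le (hη 0) (hE0 0)
  have hB0 : 0 ≤ B := by positivity
  have hb : ∀ j k, |(s (n j + 1) k - y j k) / η j| ≤ B := by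
    intro j k
    refine le_trans (hbound (lam (n j)) j (s (n j)) (s (n j + 1)) 1 k zero_le_one (hlge _)
      (hq j).1 (hq j).2 (ho.nonneg _) (ho.dom _) (habs j) (ho.step _ k)) ?_
    rw [hBdef]
    have h1 := hhalf1 k
    have h2 := hE0 j
    have h3 : K * C * η j ≤ K * C * E0 := mul_le_mul_of_nonneg_left h2 (by positivity)
    have h4 : 10 * C * 1 * (1/2) ^ k.natAbs ≤ 10 * C * 1 * 1 :=
      mul_le_mul_of_nonneg_left h1 (by positivity)
    exact div_le_div_of_nonneg_right (by linarith) hl0.le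
  have hcb : ∀ j k, |(s (n j + 2) k - y j k) / η j| ≤
      (10 * C * B * (1/2) ^ k.natAbs + K * C * η j) / lam 0 := by
    intro j k
    exact hbound (lam (n j + 1)) j (s (n j + 1)) (s (n j + 2)) B k hB0 (hlge _)
      (hq' j).1 (hq' j).2 (ho.nonneg _) (ho.dom _) (hb j) (ho.step _ k)
  -- choose `R`
  obtain ⟨R, hR⟩ : ∃ R : ℕ, 10 * C * B * (1/2) ^ R / lam 0 ≤ 1/4 := by
    have h1 : Tendsto (fun R : ℕ => 10 * C * B * ((1:ℝ)/2) ^ R / lam 0) atTop (𝓝 0) := by
      have h2 := ((tendsto_pow_atTop_nhds_zero_of_lt_one (r := (1:ℝ)/2) (by norm_num)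
        (by norm_num)).const_mul (10 * C * B)).div_const (lam 0)
      simpa using h2
    obtain ⟨R, hR⟩ := (h1.eventually (gt_mem_nhds (show (0:ℝ) < 1/4 by norm_num))).exists
    exact ⟨R, hR.le⟩
  have hev1 : ∀ᶠ j in atTop, K * C * η j / lam 0 < 1/8 := by
    have h1 : Tendsto (fun j => K * C * η j / lam 0) atTop (𝓝 0) := by
      simpa using (hη0.const_mul (K * C)).div_const (lam 0)
    exact h1.eventually (gt_mem_nhds (by norm_num))
  have hev2 : ∀ᶠ j : ℕ in atTop, 1 / ((j:ℝ) + 1) < 1/8 :=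
    hone.eventually (gt_mem_nhds (by norm_num))
  have hev3 : ∀ᶠ j in atTop, ∀ k ∈ Finset.Icc (-(R:ℤ)) R,
      |(s (n (ψ j)) k - y (ψ j) k) / η (ψ j)| < 3/4 := by
    rw [Filter.eventually_all_finset]
    intro k _
    have h1 := (hh k).abs
    rw [hz k, abs_zero] at h1
    exact h1.eventually (gt_mem_nhds (by norm_num))
  obtain ⟨j, ⟨hj1, hj2⟩, hj3⟩ := (((hψt.eventually hev1).and (hψt.eventually hev2)).and hev3).exists
  obtain ⟨k, hk⟩ := hbig (ψ j)
  have hk' : 3/4 ≤ |(s (n (ψ j)) k - y (ψ j) k) / η (ψ j)| := by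
    rw [abs_div, abs_of_pos (hη _), le_div_iff₀ (hη _)]
    exact hk
  by_cases hkR : k ∈ Finset.Icc (-(R:ℤ)) R
  · have := hj3 k hkR
    linarith
  · have hkabs : R ≤ k.natAbs := by
      rw [Finset.mem_Icc] at hkR
      omega
    have h1 := hcb (ψ j) k
    have h2 := hca (ψ j) k
    have h3 : ((1:ℝ)/2) ^ k.natAbs ≤ (1/2) ^ R :=
      pow_le_pow_of_le_one (by norm_num) (by norm_num) hkabs
    have h4 : 10 * C * B * (1/2) ^ k.natAbs / lam 0 ≤ 10 * C * B * (1/2) ^ R / lam 0 :=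
      div_le_div_of_nonneg_right (mul_le_mul_of_nonneg_left h3 (by positivity)) hl0.le
    rw [add_div] at h1
    have h5 := abs_sub_abs_le_abs_sub ((s (n (ψ j)) k - y (ψ j) k) / η (ψ j))
      ((s (n (ψ j) + 2) k - y (ψ j) k) / η (ψ j))
    rw [abs_sub_comm] at h5
    linarith

end Pool.Agent.K3h25.LT
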