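import Pool.Agent.K3h53.LT.Stm
import Pool.Agent.Helper41.CE.CU28

/-!
# Fourier tools on the line `E 1 = ℝ`
-/

open MeasureTheory Filter Topology Set
open scoped ENNReal NNReal ContDiff

namespace Pool.Agent.K3h25.LT

open Pool.Agent.Helper41.CE Pool.Agent.K3h53.LT

theorem mp_coord : MeasurePreserving (fun X : E 1 => X 0) (volume : Measure (E 1)) volume := by
  have h1 := PiLp.volume_preserving_ofLp (Fin 1)
  have h2 := volume_preserving_funUnique (Fin 1) ℝ
  exact h2.comp h1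

theorem me_coord : MeasurableEmbedding (fun X : E 1 => X 0) := by
  have h2 : MeasurableEmbedding (MeasurableEquiv.funUnique (Fin 1) ℝ) :=
    MeasurableEquiv.measurableEmbedding _
  have h1 : MeasurableEmbedding (MeasurableEquiv.toLp 2 (Fin 1 → ℝ)).symm :=
    MeasurableEquiv.measurableEmbedding _
  exact h2.comp h1

theorem integral_coord (f : ℝ → ℂ) : ∫ X : E 1, f (X 0) = ∫ s, f s :=
  mp_coord.integral_comp me_coord f

theorem integrable_coord {f : ℝ → ℂ} (hf : Integrable f) : Integrable (fun X : E 1 => f (X 0)) :=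
  mp_coord.integrable_comp_of_integrable hf

theorem memLp_coord {f : ℝ → ℂ} {p : ℝ≥0∞} (hf : MemLp f p volume) :
    MemLp (fun X : E 1 => f (X 0)) p volume :=
  hf.comp_measurePreserving mp_coord

/-- the integral of a derivative vanishes -/
theorem integral_deriv_zero (f f' : ℝ → ℂ) (s : Set ℝ) (hs : s.Countable) (hc : Continuous f)
    (hd : ∀ x, x ∉ s → HasDerivAt f (f' x) x) (hi : Integrable f')
    (h1 : Tendsto f atTop (𝓝 0)) (h2 : Tendsto f atBot (𝓝 0)) : ∫ x, f' x = 0 := by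
  have e1 : Tendsto (fun n : ℝ => ∫ x in (-n)..n, f' x) atTop (𝓝 (∫ x, f' x)) :=
    intervalIntegral_tendsto_integral hi tendsto_neg_atTop_atBot tendsto_id
  have e2 : ∀ n : ℝ, ∫ x in (-n)..n, f' x = f n - f (-n) := fun n =>
    integral_eq_of_hasDerivAt_off_countable f f' hs hc.continuousOn
      (fun x hx => hd x hx.2) hi.intervalIntegrable
  have e3 : Tendsto (fun n : ℝ => f n - f (-n)) atTop (𝓝 (0 - 0)) :=
    h1.sub (h2.comp tendsto_neg_atTop_atBot)
  simp only [e2] at e1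
  rw [sub_zero] at e3
  exact tendsto_nhds_unique e1 e3

/-- the Fourier exponential -/
noncomputable def ex (ξ s : ℝ) : ℂ := Complex.exp (-(2 * Real.pi * Complex.I * ((s * ξ : ℝ) : ℂ)))

theorem ex_norm (ξ s : ℝ) : ‖ex ξ s‖ = 1 := by
  unfold ex
  have : -(2 * Real.pi * Complex.I * ((s * ξ : ℝ) : ℂ)) =
      ((-(2 * Real.pi * (s * ξ)) : ℝ) : ℂ) * Complex.I := by
    push_cast; ring
  rw [this, Complex.norm_exp_ofReal_mul_I]

theorem ex_hasDerivAt (ξ s : ℝ) :
    HasDerivAt (ex ξ) (-(2 * Real.pi * Complex.I * (ξ : ℂ)) * ex ξ s) s := by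
  unfold ex
  have h1 : HasDerivAt (fun s : ℝ => ((s * ξ : ℝ) : ℂ)) (ξ : ℂ) s := by
    have := ((hasDerivAt_id s).mul_const ξ).ofReal_comp
    simpa using this
  have h2 : HasDerivAt (fun s : ℝ => -(2 * Real.pi * Complex.I * ((s * ξ : ℝ) : ℂ)))
      (-(2 * Real.pi * Complex.I * (ξ : ℂ))) s := by
    have := (h1.const_mul (2 * Real.pi * Complex.I)).neg
    exact this
  have := h2.cexp
  rwa [mul_comm (Complex.exp _)] at this

theorem ex_cont (ξ : ℝ) : Continuous (ex ξ) := by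
  unfold ex
  fun_prop

theorem ex_int {ξ : ℝ} {f : ℝ → ℂ} (hf : Integrable f) : Integrable (fun s => ex ξ s * f s) := by
  refine hf.bdd_mul (c := 1) (ex_cont ξ).aestronglyMeasurable ?_
  exact Eventually.of_forall fun s => (ex_norm ξ s).le

theorem ex_tendsto {ξ : ℝ} {f : ℝ → ℂ} {l : Filter ℝ} (hf : Tendsto f l (𝓝 0)) :
    Tendsto (fun s => ex ξ s * f s) l (𝓝 0) := by
  rw [tendsto_zero_iff_norm_tendsto_zero] at hf ⊢
  simpa [ex_norm] using hf

theorem ex_deriv (ξ : ℝ) (g g' : ℝ → ℂ) (s : Set ℝ) (hs : s.Countable)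
    (hc : Continuous g) (hd : ∀ x, x ∉ s → HasDerivAt g (g' x) x) (hi : Integrable g)
    (hi' : Integrable g') (h1 : Tendsto g atTop (𝓝 0)) (h2 : Tendsto g atBot (𝓝 0)) :
    ∫ x, ex ξ x * g' x = (2 * Real.pi * Complex.I * (ξ : ℂ)) * ∫ x, ex ξ x * g x := by
  have hI : Integrable (fun x => -(2 * Real.pi * Complex.I * (ξ : ℂ)) * ex ξ x * g x) := by
    have := (ex_int (ξ := ξ) hi).const_mul (-(2 * Real.pi * Complex.I * (ξ : ℂ)))
    simpa only [mul_assoc] using this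
  have h := integral_deriv_zero (fun x => ex ξ x * g x)
    (fun x => -(2 * Real.pi * Complex.I * (ξ : ℂ)) * ex ξ x * g x + ex ξ x * g' x) s hs
    ((ex_cont ξ).mul hc) (fun x hx => (ex_hasDerivAt ξ x).mul (hd x hx))
    (hI.add (ex_int hi')) (ex_tendsto h1) (ex_tendsto h2)
  rw [integral_add hI (ex_int hi')] at h
  have e : ∫ x, -(2 * Real.pi * Complex.I * (ξ : ℂ)) * ex ξ x * g x =
      -(2 * Real.pi * Complex.I * (ξ : ℂ)) * ∫ x, ex ξ x * g x := by
    rw [← integral_const_mul]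
    simp only [mul_assoc]
  rw [e] at h
  linear_combination h

theorem ex_deriv2 (ξ : ℝ) (g g1 g2 : ℝ → ℂ) (s : Set ℝ) (hs : s.Countable)
    (hc : Continuous g) (hc1 : Continuous g1) (hd : ∀ x, x ∉ s → HasDerivAt g (g1 x) x)
    (hd1 : ∀ x, x ∉ s → HasDerivAt g1 (g2 x) x) (hi : Integrable g)
    (hi1 : Integrable g1) (hi2 : Integrable g2) (h1 : Tendsto g atTop (𝓝 0))
    (h2 : Tendsto g atBot (𝓝 0)) (h3 : Tendsto g1 atTop (𝓝 0)) (h4 : Tendsto g1 atBot (𝓝 0)) :
    ∫ x, ex ξ x * g2 x = -(4 * Real.pi ^ 2 * ξ ^ 2 : ℝ) * ∫ x, ex ξ x * g x := by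
  rw [ex_deriv ξ g1 g2 s hs hc1 hd1 hi1 hi2 h3 h4, ex_deriv ξ g g1 s hs hc hd hi hi1 h1 h2]
  push_cast
  linear_combination (4 * (Real.pi : ℂ) ^ 2 * (ξ : ℂ) ^ 2 * ∫ x, ex ξ x * g x) * Complex.I_sq

theorem rho_one (ξ : E 1) : rho ξ = 4 * Real.pi ^ 2 * (ξ 0) ^ 2 := by
  unfold rho
  rw [EuclideanSpace.norm_sq_eq]
  simp

theorem BM_rho (z : ℂ) (hz : 0 < z.im) : BM (fun ξ : E 1 => ((rho ξ : ℂ) - z)⁻¹) := by
  refine ⟨?_, 1 / z.im, fun ξ => ?_⟩
  · unfold rho
    fun_prop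
  · have him : ((rho ξ : ℂ) - z).im = -z.im := by simp
    have h2 : z.im ≤ ‖(rho ξ : ℂ) - z‖ := by
      have h3 := Complex.abs_im_le_norm ((rho ξ : ℂ) - z)
      rw [him, abs_neg, abs_of_pos hz] at h3
      exact h3
    rw [norm_inv, ← one_div]
    exact one_div_le_one_div_of_le hz h2

/-- free resolvent by Fourier integrals on the line -/
theorem rz_line (a S : ℝ → ℂ) (ha : Integrable a) (hS : Integrable S)
    (ha2 : MemLp a 2 volume) (hS2 : MemLp S 2 volume) (z : ℂ) (hz : 0 < z.im)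
    (h : ∀ ξ : ℝ, ∫ s, ex ξ s * S s = ((4 * Real.pi ^ 2 * ξ ^ 2 : ℝ) - z) * ∫ s, ex ξ s * a s) :
    (memLp_coord ha2).toLp (fun X : E 1 => a (X 0)) =
      Rz z ((memLp_coord hS2).toLp (fun X : E 1 => S (X 0))) := by
  have hFa := h939_FT_ae _ (integrable_coord ha) (memLp_coord ha2)
  have hFS := h939_FT_ae _ (integrable_coord hS) (memLp_coord hS2)
  have hbm := BM_rho z hz
  have hint : ∀ (f : ℝ → ℂ) (ξ : E 1),
      FourierTransform.fourier (fun X : E 1 => f (X 0)) ξ = ∫ s, ex (ξ 0) s * f s := by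
    intro f ξ
    rw [Real.fourier_eq', ← integral_coord (fun s => ex (ξ 0) s * f s)]
    apply integral_congr_ae
    filter_upwards with X
    rw [smul_eq_mul]
    congr 1
    unfold ex
    congr 1
    have : inner ℝ X ξ = X 0 * ξ 0 := by
      rw [PiLp.inner_apply]
      simp [mul_comm]
    rw [this]
    push_cast
    ring
  apply (FT 1).injective
  unfold Rz
  rw [Fm_apply]
  apply Lp.ext
  have h4 := mulop_spec hbm (FT 1 ((memLp_coord hS2).toLp (fun X : E 1 => S (X 0))))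
  filter_upwards [hFa, hFS, h4] with ξ h1 h2 h3
  rw [h1, h3, h2, hint a ξ, hint S ξ, h (ξ 0), rho_one ξ]
  have hne : ((4 * Real.pi ^ 2 * (ξ 0) ^ 2 : ℝ) : ℂ) - z ≠ 0 := by
    intro h0
    have := congrArg Complex.im h0
    simp only [Complex.sub_im, Complex.ofReal_im, Complex.zero_im] at this
    linarith
  rw [inv_mul_cancel_left₀ hne]

end Pool.Agent.K3h25.LT
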