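import Pool.Agent.K3h25.LT.Line

/-!
# Brick STEP: even bound states of the step potential
-/

open MeasureTheory Filter Topology Set
open scoped ENNReal NNReal ContDiff

namespace Pool.Agent.K3h25.LT

open Pool.Agent.Helper41.CE Pool.Agent.K3h53.LT

/-- three pieces -/
noncomputable def pw (L : ℝ) (f1 f2 f3 : ℝ → ℂ) (s : ℝ) : ℂ :=
  if s ≤ 0 then f1 s else if s ≤ L then f2 s else f3 s

theorem pw_cont (L : ℝ) (f1 f2 f3 : ℝ → ℂ) (hL : 0 ≤ L) (h1 : Continuous f1) (h2 : Continuous f2)
    (h3 : Continuous f3) (e1 : f1 0 = f2 0) (e2 : f2 L = f3 L) : Continuous (pw L f1 f2 f3) := by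
  unfold pw
  refine Continuous.if_le h1 (Continuous.if_le h2 h3 continuous_id continuous_const ?_)
    continuous_id continuous_const ?_
  · intro x hx
    rw [hx, e2]
  · intro x hx
    rw [hx, if_pos hL, e1]

theorem pw_deriv (L : ℝ) (f1 f2 f3 g1 g2 g3 : ℝ → ℂ)
    (h1 : ∀ x, HasDerivAt f1 (g1 x) x) (h2 : ∀ x, HasDerivAt f2 (g2 x) x)
    (h3 : ∀ x, HasDerivAt f3 (g3 x) x) (x : ℝ) (hx0 : x ≠ 0) (hxL : x ≠ L) (hL : 0 ≤ L) :
    HasDerivAt (pw L f1 f2 f3) (pw L g1 g2 g3 x) x := by
  rcases lt_or_gt_of_ne hx0 with h | h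
  · have e : pw L g1 g2 g3 x = g1 x := by
      unfold pw
      rw [if_pos h.le]
    rw [e]
    refine (h1 x).congr_of_eventuallyEq ?_
    filter_upwards [Iio_mem_nhds h] with y hy
    unfold pw
    rw [if_pos (le_of_lt hy)]
  · rcases lt_or_gt_of_ne hxL with h' | h'
    · have e : pw L g1 g2 g3 x = g2 x := by
        unfold pw
        rw [if_neg (not_le.2 h), if_pos h'.le]
      rw [e]
      refine (h2 x).congr_of_eventuallyEq ?_
      filter_upwards [Ioo_mem_nhds h h'] with y hy
      unfold pw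
      rw [if_neg (not_le.2 hy.1), if_pos hy.2.le]
    · have e : pw L g1 g2 g3 x = g3 x := by
        unfold pw
        rw [if_neg (not_le.2 h), if_neg (not_le.2 h')]
      rw [e]
      refine (h3 x).congr_of_eventuallyEq ?_
      filter_upwards [Ioi_mem_nhds h'] with y hy
      unfold pw
      rw [if_neg (not_le.2 (lt_of_le_of_lt hL hy)), if_neg (not_le.2 hy)]

/-- exponential bound at infinity -/
def EB (b : ℝ) (f : ℝ → ℂ) : Prop := ∃ C : ℝ, ∀ s, ‖f s‖ ≤ C * Real.exp (-b * |s|)

theorem exp_abs_int {b : ℝ} (hb : 0 < b) : Integrable (fun s : ℝ => Real.exp (-b * |s|)) := by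
  rw [← integrableOn_univ, ← Iic_union_Ioi (a := (0 : ℝ))]
  refine IntegrableOn.union ?_ ?_
  · refine (integrableOn_exp_mul_Iic hb 0).congr_fun (fun s hs => ?_) measurableSet_Iic
    simp only [abs_of_nonpos (mem_Iic.1 hs)]
    congr 1
    ring
  · refine (integrableOn_exp_mul_Ioi (neg_lt_zero.2 hb) 0).congr_fun (fun s hs => ?_)
      measurableSet_Ioi
    simp only [abs_of_pos (mem_Ioi.1 hs)]

theorem EB.int {b : ℝ} {f : ℝ → ℂ} (h : EB b f) (hb : 0 < b) (hm : AEStronglyMeasurable f volume) :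
    Integrable f := by
  obtain ⟨C, hC⟩ := h
  exact ((exp_abs_int hb).const_mul C).mono' hm (Eventually.of_forall hC)

theorem EB.memLp {b : ℝ} {f : ℝ → ℂ} (h : EB b f) (hb : 0 < b)
    (hm : AEStronglyMeasurable f volume) : MemLp f 2 volume := by
  obtain ⟨C, hC⟩ := h
  rw [memLp_two_iff_integrable_sq_norm hm]
  refine ((exp_abs_int (b := 2 * b) (by positivity)).const_mul (C ^ 2)).mono'
    (hm.norm.pow 2) (Eventually.of_forall fun s => ?_)
  rw [Real.norm_of_nonneg (by positivity)]
  have h1 := pow_le_pow_left₀ (norm_nonneg _) (hC s) 2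
  refine h1.trans (le_of_eq ?_)
  rw [mul_pow, ← Real.exp_nat_mul]
  congr 2
  push_cast
  ring

theorem EB.top {b : ℝ} {f : ℝ → ℂ} (h : EB b f) (hb : 0 < b) : Tendsto f atTop (𝓝 0) := by
  obtain ⟨C, hC⟩ := h
  refine squeeze_zero_norm hC ?_
  have h1 : Tendsto (fun s : ℝ => -b * |s|) atTop atBot :=
    tendsto_abs_atTop_atTop.const_mul_atTop_of_neg (neg_lt_zero.2 hb)
  have h2 := (Real.tendsto_exp_atBot.comp h1).const_mul C
  rw [mul_zero] at h2
  exact h2

theorem EB.bot {b : ℝ} {f : ℝ → ℂ} (h : EB b f) (hb : 0 < b) : Tendsto f atBot (𝓝 0) := by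
  obtain ⟨C, hC⟩ := h
  refine squeeze_zero_norm hC ?_
  have h1 : Tendsto (fun s : ℝ => -b * |s|) atBot atBot :=
    tendsto_abs_atBot_atTop.const_mul_atTop_of_neg (neg_lt_zero.2 hb)
  have h2 := (Real.tendsto_exp_atBot.comp h1).const_mul C
  rw [mul_zero] at h2
  exact h2

theorem pw_EB (L : ℝ) (hL : 0 ≤ L) (k c1 c3 : ℂ) (f2 : ℝ → ℂ) (h2 : Continuous f2)
    (hk : 0 ≤ k.im) :
    EB k.im (pw L (fun s => c1 * Complex.exp (-(Complex.I * k * s))) f2
      (fun s => c3 * Complex.exp (Complex.I * k * (s - L)))) := by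
  obtain ⟨M, hM⟩ := (isCompact_Icc (a := (0 : ℝ)) (b := L)).exists_bound_of_continuousOn
    h2.continuousOn
  have hM0 : 0 ≤ M := (norm_nonneg _).trans (hM 0 ⟨le_rfl, hL⟩)
  have hE : 0 < Real.exp (k.im * L) := Real.exp_pos _
  refine ⟨‖c1‖ + M * Real.exp (k.im * L) + ‖c3‖ * Real.exp (k.im * L), fun s => ?_⟩
  unfold pw
  have h0 : 0 < Real.exp (-k.im * |s|) := Real.exp_pos _
  split_ifs with h h'
  · rw [norm_mul, Complex.norm_exp]
    have e : (-(Complex.I * k * s)).re = -k.im * |s| := by
      rw [abs_of_nonpos h]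
      simp
    rw [e]
    refine mul_le_mul_of_nonneg_right ?_ h0.le
    have := norm_nonneg c3
    nlinarith [mul_nonneg hM0 hE.le, mul_nonneg this hE.le]
  · have hs : 0 < s := not_le.1 h
    have h1 := hM s ⟨hs.le, h'⟩
    have h3 : 1 ≤ Real.exp (k.im * L) * Real.exp (-k.im * |s|) := by
      rw [← Real.exp_add, abs_of_pos hs]
      apply Real.one_le_exp
      nlinarith
    have h4 : M ≤ M * Real.exp (k.im * L) * Real.exp (-k.im * |s|) := by
      rw [mul_assoc]
      exact le_mul_of_one_le_right hM0 h3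
    have h5 : 0 ≤ ‖c1‖ * Real.exp (-k.im * |s|) := by positivity
    have h6 : 0 ≤ ‖c3‖ * Real.exp (k.im * L) * Real.exp (-k.im * |s|) := by positivity
    nlinarith
  · have hs : L < s := not_le.1 h'
    have hs0 : 0 < s := hL.trans_lt hs
    rw [norm_mul, Complex.norm_exp]
    have e : (Complex.I * k * ((s : ℂ) - L)).re = k.im * L + -k.im * |s| := by
      rw [abs_of_pos hs0]
      simp
      ring
    rw [e, Real.exp_add]
    have h5 : 0 ≤ ‖c1‖ * Real.exp (-k.im * |s|) := by positivity
    have h6 : 0 ≤ M * Real.exp (k.im * L) * Real.exp (-k.im * |s|) := by positivity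
    nlinarith

/-- the facts about the parameter -/
theorem step_num (θ : ℝ) (w : ℂ) (hθ : 4 ≤ θ) (hw : ‖w - θ‖ ≤ 1) (hi : 0 < w.im) :
    w ≠ 0 ∧ 1 / 2 ≤ (mu w).im ∧ 0 < (mu w).re ∧ ‖mu w‖ ≤ θ ^ 2 ∧
      0 < ((w + Complex.I / w) / 2).im := by
  have h1 : |w.re - θ| ≤ 1 := by
    have := (Complex.abs_re_le_norm (w - θ)).trans hw
    simpa using this
  have h2 : |w.im| ≤ 1 := by
    have := (Complex.abs_im_le_norm (w - θ)).trans hw
    simpa using this
  have hre : 3 ≤ w.re := by
    have := (abs_le.1 h1).1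
    linarith
  have him : w.im ≤ 1 := (abs_le.1 h2).2
  have hw0 : w ≠ 0 := by
    intro h
    rw [h] at hi
    simp at hi
  have hn : 3 ≤ ‖w‖ := hre.trans (Complex.re_le_norm w)
  have hn2 : ‖w‖ ≤ θ + 1 := by
    have h3 : ‖w‖ ≤ ‖w - θ‖ + ‖(θ : ℂ)‖ := by
      have := norm_add_le (w - θ) (θ : ℂ)
      simpa using this
    rw [Complex.norm_real, Real.norm_of_nonneg (by linarith)] at h3
    linarith
  have hsq : 0 < Complex.normSq w := Complex.normSq_pos.2 hw0
  have hsq9 : 9 ≤ Complex.normSq w := by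
    rw [Complex.normSq_eq_norm_sq]
    nlinarith
  have hmu : mu w = (w ^ 2 + 2 * Complex.I - (w⁻¹) ^ 2) / 4 := by
    unfold mu
    field_simp
    linear_combination 4 * Complex.I_sq
  have hinvre : (w⁻¹).re = w.re / Complex.normSq w := Complex.inv_re w
  have hinvim : (w⁻¹).im = -w.im / Complex.normSq w := Complex.inv_im w
  have hd : 0 < w.re / Complex.normSq w := by positivity
  have hd' : 0 < w.im / Complex.normSq w := by positivity
  refine ⟨hw0, ?_, ?_, ?_, ?_⟩
  · have e : (mu w).im = (2 * (w.re * w.im) + 2 - 2 * ((w⁻¹).re * (w⁻¹).im)) / 4 := by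
      rw [hmu, pow_two, pow_two, Complex.div_ofNat_im]
      simp only [Complex.sub_im, Complex.add_im, Complex.mul_im, Complex.I_re,
        Complex.I_im, Complex.re_ofNat, Complex.im_ofNat]
      ring
    rw [e, hinvre, hinvim, neg_div]
    have h5 : 0 < w.re * w.im := by positivity
    have h6 : 0 < (w.re / Complex.normSq w) * (w.im / Complex.normSq w) := by positivity
    linarith
  · have e : (mu w).re = (w.re ^ 2 - w.im ^ 2 - ((w⁻¹).re ^ 2 - (w⁻¹).im ^ 2)) / 4 := by
      rw [hmu, pow_two, pow_two, Complex.div_ofNat_re]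
      simp only [Complex.sub_re, Complex.add_re, Complex.mul_re, Complex.I_re,
        Complex.I_im, Complex.re_ofNat, Complex.im_ofNat]
      ring
    rw [e, hinvre]
    have h5 : w.re / Complex.normSq w ≤ w.re / 9 := by
      gcongr
    have h6 : (w.re / Complex.normSq w) ^ 2 ≤ (w.re / 9) ^ 2 := by gcongr
    nlinarith [sq_nonneg (w⁻¹).im]
  · unfold mu
    rw [norm_pow, norm_div]
    have h5 : ‖w + Complex.I / w‖ ≤ θ + 1 + 1 / 3 := by
      refine (norm_add_le _ _).trans ?_
      rw [norm_div, Complex.norm_I]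
      have : 1 / ‖w‖ ≤ 1 / 3 := by gcongr
      linarith
    have h6 : ‖w + Complex.I / w‖ / ‖(2 : ℂ)‖ ≤ θ := by
      rw [Complex.norm_ofNat]
      linarith
    gcongr
  · rw [Complex.div_ofNat_im, Complex.add_im, div_eq_mul_inv Complex.I w, Complex.I_mul_im, hinvre]
    linarith

/-- the matching condition -/
theorem step_match (θ L : ℝ) (n : ℕ) (w : ℂ) (hL : 0 < L) (hw0 : w ≠ 0)
    (hθL : θ * L = Real.pi + 4 * Real.pi * n)
    (hw : w = θ + Complex.I / w - 4 / L * Complex.I * Complex.log w) :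
    -((w - Complex.I / w) / 2) * Complex.sin ((w - Complex.I / w) / 2 * (L / 2)) =
      Complex.I * ((w + Complex.I / w) / 2) * Complex.cos ((w - Complex.I / w) / 2 * (L / 2)) := by
  set a : ℂ := (w - Complex.I / w) / 2 with ha
  set k : ℂ := (w + Complex.I / w) / 2 with hk
  have hLc : (L : ℂ) ≠ 0 := by exact_mod_cast hL.ne'
  have h1 : Complex.I * a * L = (Real.pi / 2 * Complex.I + (n : ℂ) * (2 * Real.pi * Complex.I)) +
      (Complex.log w + Complex.log w) := by
    have h2 : a = θ / 2 - 2 / L * Complex.I * Complex.log w := by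
      rw [ha]
      linear_combination hw / 2
    have h3 : (θ : ℂ) * L = Real.pi + 4 * Real.pi * n := by exact_mod_cast hθL
    rw [h2]
    field_simp
    linear_combination Complex.I * h3 - 4 * Complex.log w * Complex.I_sq
  have h4 : Complex.exp (Complex.I * a * L) = Complex.I * w ^ 2 := by
    rw [h1, Complex.exp_add, Complex.exp_add, Complex.exp_add, Complex.exp_log hw0,
      Complex.exp_pi_div_two_mul_I, Complex.exp_nat_mul_two_pi_mul_I]
    ring
  have h5 : Complex.exp (Complex.I * a * L) * (a - k) = a + k := by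
    rw [h4, ha, hk]
    field_simp
    linear_combination (-2 * w ^ 2) * Complex.I_sq
  set e : ℂ := Complex.exp (a * (L / 2) * Complex.I) with he
  have h6 : Complex.exp (Complex.I * a * L) = e * e := by
    rw [he, ← Complex.exp_add]
    congr 1
    ring
  have h7 : Complex.exp (-(a * (L / 2)) * Complex.I) = e⁻¹ := by
    rw [he, ← Complex.exp_neg]
    congr 1
    ring
  have he0 : e ≠ 0 := Complex.exp_ne_zero _
  rw [Complex.sin, Complex.cos, h7, ← he]
  rw [h6] at h5
  field_simp
  linear_combination h5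

theorem t_step : St_step := by
  intro L θ n w hθ hL hθL hw hfix hi
  obtain ⟨hw0, hm1, hm2, hm3, hk⟩ := step_num θ w hθ hw hi
  have hL0 : 0 < L := by nlinarith
  refine ⟨hm1, hm2, hm3, ?_⟩
  have hmatch := step_match θ L n w hL0 hw0 hθL hfix
  have hmuk : mu w = ((w + Complex.I / w) / 2) ^ 2 := rfl
  have hak : ((w - Complex.I / w) / 2) ^ 2 = mu w - Complex.I := by
    rw [hmuk]
    field_simp
    ring
  set a : ℂ := (w - Complex.I / w) / 2 with ha
  set k : ℂ := (w + Complex.I / w) / 2 with hkk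
  set c : ℂ := Complex.cos (a * (L / 2)) with hc
  -- the functions
  set g : ℝ → ℂ := pw L (fun s => c * Complex.exp (-(Complex.I * k * s)))
    (fun s => Complex.cos (a * (s - L / 2))) (fun s => c * Complex.exp (Complex.I * k * (s - L)))
    with hg
  set g1 : ℝ → ℂ := pw L (fun s => (-(Complex.I * k) * c) * Complex.exp (-(Complex.I * k * s)))
    (fun s => -a * Complex.sin (a * (s - L / 2)))
    (fun s => (Complex.I * k * c) * Complex.exp (Complex.I * k * (s - L))) with hg1
  set g2 : ℝ → ℂ := pw L (fun s => (-(mu w) * c) * Complex.exp (-(Complex.I * k * s)))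
    (fun s => (Complex.I - mu w) * Complex.cos (a * (s - L / 2)))
    (fun s => (-(mu w) * c) * Complex.exp (Complex.I * k * (s - L))) with hg2
  have hgc : Continuous g := by
    rw [hg]
    refine pw_cont L _ _ _ hL0.le (by fun_prop) (by fun_prop) (by fun_prop) ?_ ?_
    · have e : a * (((0 : ℝ) : ℂ) - L / 2) = -(a * (L / 2)) := by push_cast; ring
      rw [e, Complex.cos_neg]
      simp [hc]
    · have e : a * ((L : ℂ) - L / 2) = a * (L / 2) := by ring
      rw [e]
      simp [hc]
  have hg1c : Continuous g1 := by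
    rw [hg1]
    refine pw_cont L _ _ _ hL0.le (by fun_prop) (by fun_prop) (by fun_prop) ?_ ?_
    · have e : a * (((0 : ℝ) : ℂ) - L / 2) = -(a * (L / 2)) := by push_cast; ring
      rw [e, Complex.sin_neg]
      simp only [Complex.ofReal_zero, mul_zero, neg_zero, Complex.exp_zero, mul_one]
      linear_combination hmatch
    · have e : a * ((L : ℂ) - L / 2) = a * (L / 2) := by ring
      rw [e]
      simp only [sub_self, mul_zero, Complex.exp_zero, mul_one]
      exact hmatch
  have hexp1 : ∀ (C : ℂ) (x : ℝ), HasDerivAt (fun s : ℝ => C * Complex.exp (-(Complex.I * k * s)))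
      (-(Complex.I * k) * C * Complex.exp (-(Complex.I * k * x))) x := by
    intro C x
    have h1 : HasDerivAt (fun s : ℝ => -(Complex.I * k * (s : ℂ))) (-(Complex.I * k)) x := by
      have := (((hasDerivAt_id x).ofReal_comp).const_mul (Complex.I * k)).fun_neg
      simpa using this
    have h2 := h1.cexp.const_mul C
    refine h2.congr_deriv ?_
    ring
  have hexp3 : ∀ (C : ℂ) (x : ℝ),
      HasDerivAt (fun s : ℝ => C * Complex.exp (Complex.I * k * ((s : ℂ) - L)))
      ((Complex.I * k) * C * Complex.exp (Complex.I * k * ((x : ℂ) - L))) x := by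
    intro C x
    have h1 : HasDerivAt (fun s : ℝ => Complex.I * k * ((s : ℂ) - L)) (Complex.I * k) x := by
      have := (((hasDerivAt_id x).ofReal_comp).sub_const (L : ℂ)).const_mul (Complex.I * k)
      simpa using this
    have h2 := h1.cexp.const_mul C
    refine h2.congr_deriv ?_
    ring
  have hlin : ∀ x : ℝ, HasDerivAt (fun s : ℝ => a * ((s : ℂ) - L / 2)) a x := by
    intro x
    have := (((hasDerivAt_id x).ofReal_comp).sub_const ((L : ℂ) / 2)).const_mul a
    simpa using this
  have hcos : ∀ x : ℝ, HasDerivAt (fun s : ℝ => Complex.cos (a * ((s : ℂ) - L / 2)))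
      (-a * Complex.sin (a * ((x : ℂ) - L / 2))) x := by
    intro x
    have h := (Complex.hasDerivAt_cos (a * ((x : ℂ) - L / 2))).comp x (hlin x)
    refine h.congr_deriv ?_
    ring
  have hsin : ∀ x : ℝ, HasDerivAt (fun s : ℝ => -a * Complex.sin (a * ((s : ℂ) - L / 2)))
      ((Complex.I - mu w) * Complex.cos (a * ((x : ℂ) - L / 2))) x := by
    intro x
    have h := (Complex.hasDerivAt_sin (a * ((x : ℂ) - L / 2))).comp x (hlin x)
    refine (h.const_mul (-a)).congr_deriv ?_
    linear_combination (-Complex.cos (a * ((x : ℂ) - L / 2))) * hak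
  have hk2 : Complex.I * k * (Complex.I * k) = -(mu w) := by
    rw [hmuk]
    linear_combination k ^ 2 * Complex.I_sq
  have hd : ∀ x, x ∉ ({0, L} : Set ℝ) → HasDerivAt g (g1 x) x := by
    intro x hx
    simp only [mem_insert_iff, mem_singleton_iff, not_or] at hx
    exact pw_deriv L _ _ _ _ _ _ (hexp1 c) hcos (hexp3 c) x hx.1 hx.2 hL0.le
  have hd1 : ∀ x, x ∉ ({0, L} : Set ℝ) → HasDerivAt g1 (g2 x) x := by
    intro x hx
    simp only [mem_insert_iff, mem_singleton_iff, not_or] at hx
    refine pw_deriv L _ _ _ _ _ _ (fun y => ?_) hsin (fun y => ?_) x hx.1 hx.2 hL0.le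
    · refine (hexp1 (-(Complex.I * k) * c) y).congr_deriv ?_
      linear_combination (c * Complex.exp (-(Complex.I * k * y))) * hk2
    · refine (hexp3 (Complex.I * k * c) y).congr_deriv ?_
      linear_combination (c * Complex.exp (Complex.I * k * (y - L))) * hk2
  have hb : 0 < k.im := hk
  have hEB : EB k.im g := pw_EB L hL0.le k _ _ _ (by fun_prop) hb.le
  have hEB1 : EB k.im g1 := pw_EB L hL0.le k _ _ _ (by fun_prop) hb.le
  have hgi := hEB.int hb hgc.aestronglyMeasurable
  have hgi1 := hEB1.int hb hg1c.aestronglyMeasurable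
  have hg22 := hEB.memLp hb hgc.aestronglyMeasurable
  -- the step potential
  set W : ℝ → ℂ := fun s => if 0 ≤ s ∧ s ≤ L then Complex.I else 0 with hW
  have hWm : Measurable W := by
    rw [hW]
    refine Measurable.ite ?_ measurable_const measurable_const
    exact (measurableSet_Icc : MeasurableSet (Icc (0 : ℝ) L))
  have hW1 : ∀ s, ‖W s‖ ≤ 1 := by
    intro s
    simp only [hW]
    split_ifs <;> simp
  have hWg : Integrable (fun s => W s * g s) :=
    hgi.bdd_mul (c := 1) hWm.aestronglyMeasurable (Eventually.of_forall hW1)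
  have hWg2 : MemLp (fun s => W s * g s) 2 volume := by
    refine hg22.mono (hWm.aestronglyMeasurable.mul hgc.aestronglyMeasurable)
      (Eventually.of_forall fun s => ?_)
    rw [norm_mul]
    exact mul_le_of_le_one_left (norm_nonneg _) (hW1 s)
  have hg2ae : g2 =ᵐ[volume] fun s => W s * g s - mu w * g s := by
    have h0 : ∀ᵐ s : ℝ, s ≠ 0 := by
      rw [ae_iff]
      simp
    filter_upwards [h0] with s hs0
    simp only [hg2, hg, pw, hW]
    rcases lt_or_gt_of_ne hs0 with h | h
    · rw [if_pos h.le, if_pos h.le, if_neg (fun h' => absurd h'.1 (not_le.2 h))]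
      ring
    · rw [if_neg (not_le.2 h), if_neg (not_le.2 h)]
      by_cases h' : s ≤ L
      · rw [if_pos h', if_pos h', if_pos ⟨h.le, h'⟩]
        ring
      · rw [if_neg h', if_neg h', if_neg (fun h'' => h' h''.2)]
        ring
  have hi2 : Integrable g2 := (hWg.sub (hgi.const_mul (mu w))).congr hg2ae.symm
  have hS : Integrable (fun s => -(W s * g s)) := hWg.neg
  have hS2 : MemLp (fun s => -(W s * g s)) 2 volume := hWg2.neg
  have key := rz_line g (fun s => -(W s * g s)) hgi hS hg22 hS2 (mu w) (by linarith) (by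
    intro ξ
    have h := ex_deriv2 ξ g g1 g2 {0, L} (by simp) hgc hg1c hd hd1 hgi hgi1 hi2
      (hEB.top hb) (hEB.bot hb) (hEB1.top hb) (hEB1.bot hb)
    have e1 : ∫ x, ex ξ x * g2 x =
        (∫ x, ex ξ x * (W x * g x)) - mu w * ∫ x, ex ξ x * g x := by
      rw [← integral_const_mul, ← integral_sub (ex_int hWg) ((ex_int hgi).const_mul _)]
      apply integral_congr_ae
      filter_upwards [hg2ae] with s hs
      rw [hs]
      ring
    have e2 : ∫ s, ex ξ s * -(W s * g s) = -∫ s, ex ξ s * (W s * g s) := by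
      rw [← integral_neg]
      congr 1
      funext s
      ring
    rw [e2]
    rw [e1] at h
    push_cast at h ⊢
    linear_combination -h)
  refine ⟨(memLp_coord hg22).toLp (fun X : E 1 => g (X 0)), ?_, ?_⟩
  · intro h0
    have h1 : (fun X : E 1 => g (X 0)) =ᵐ[volume] 0 := by
      have h2 := (memLp_coord hg22).coeFn_toLp
      rw [h0] at h2
      exact h2.symm.trans (Lp.coeFn_zero _ _ _)
    have h2 : Continuous (fun X : E 1 => g (X 0)) := by
      have : Continuous (fun X : E 1 => X 0) := by fun_prop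
      exact hgc.comp this
    have h3 : (fun X : E 1 => g (X 0)) = fun _ => 0 :=
      Continuous.ae_eq_iff_eq volume h2 continuous_const |>.1 h1
    have h4 := congrFun h3 (EuclideanSpace.single 0 (L / 2))
    simp only [PiLp.single_apply, if_true] at h4
    rw [hg] at h4
    unfold pw at h4
    rw [if_neg (by linarith), if_pos (by linarith)] at h4
    simp at h4
  · have hBM : BM (Wst L) := by
      refine ⟨?_, 1, fun x => ?_⟩
      · have : Wst L = fun X : E 1 => W (X 0) := rfl
        rw [this]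
        exact hWm.comp mp_coord.measurable
      · exact hW1 (x 0)
    have hmul : mulop (Wst L) ((memLp_coord hg22).toLp (fun X : E 1 => g (X 0))) =
        -((memLp_coord hS2).toLp (fun X : E 1 => -(W (X 0) * g (X 0)))) := by
      apply Lp.ext
      have h1 := mulop_spec hBM ((memLp_coord hg22).toLp (fun X : E 1 => g (X 0)))
      filter_upwards [h1, (memLp_coord hg22).coeFn_toLp, (memLp_coord hS2).coeFn_toLp,
        Lp.coeFn_neg ((memLp_coord hS2).toLp (fun X : E 1 => -(W (X 0) * g (X 0))))]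
        with X h1 h2 h3 h4
      rw [h1, h2, h4, Pi.neg_apply, h3, neg_neg]
      rfl
    rw [hmul, map_neg, ← key]
    simp

end Pool.Agent.K3h25.LT
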